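import Pool.Agent.Q275.GQ.All

/-!
# MP_cdbd41_nt: word frequencies in expansions with a Gaussian rational base

For every non-real quadratic number `α` with `|α| > 1`, in particular for every non-real
`α ∈ ℚ(i)` with `|α| > 1`, and for almost every `x ∈ ℂ`, every `α`-expansion of `x` has the property
that every word `w` of length `ℓ` over the digits `{0, 1, …, |a₀| - 1}` has the frequency
`|a₀| ^ (-ℓ)`.
-/

set_option autoImplicit false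

namespace Pool.Agent.Results.MP_cdbd41_nt.WordFrequencies

open Finset Filter Topology MeasureTheory

/-- The lattice `Λ = a₂ ℤ + (a₂ α + a₁) ℤ`. -/
def Lattice (a₁ a₂ : ℤ) (α : ℂ) : Set ℂ :=
  {z | ∃ m n : ℤ, z = m * a₂ + n * (a₂ * α + a₁)}

/-- `(d j)_{j ≤ k}` is an `α`-expansion of `x`: the digits are in `{0, 1, …, |a₀| - 1}`,
`x = ∑_{j ≤ k} d j α ^ j`, and `∑_{m ≤ j ≤ k} d j α ^ (j - m) ∈ Λ` for every `m ≤ k`. -/
structure IsExpansion (a₀ a₁ a₂ : ℤ) (α x : ℂ) (k : ℤ) (d : ℤ → ℕ) : Prop where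
  digit : ∀ j ≤ k, (d j : ℤ) < |a₀|
  sum : HasSum (fun n : ℕ => (d (k - n) : ℂ) * α ^ (k - n)) x
  mem : ∀ m ≤ k, ∑ j ∈ Icc m k, (d j : ℂ) * α ^ (j - m) ∈ Lattice a₁ a₂ α

/-- Let `α` be a non-real complex number with `|α| > 1` which is a root of the primitive polynomial
`a₂ X² + a₁ X + a₀`, `a₂ > 0` (every non-real `α ∈ ℚ(i)` with `|α| > 1` is an example). For
almost every `x ∈ ℂ`, for every `α`-expansion `(d j)_{j ≤ k}` of `x` and every word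
`w 0, …, w (ℓ - 1)` over `{0, 1, …, |a₀| - 1}`, the number of the `t < n` with
`d (k - t - i) = w i` for all `i < ℓ`, divided by `n`, tends to `|a₀| ^ (-ℓ)`. -/
theorem result (a₀ a₁ a₂ : ℤ) (α : ℂ) (hα : α.im ≠ 0) (hα1 : 1 < ‖α‖)
    (h0 : (a₂ : ℂ) * α ^ 2 + a₁ * α + a₀ = 0) (h2 : 0 < a₂)
    (hc : ∀ n : ℤ, n ∣ a₀ → n ∣ a₁ → n ∣ a₂ → IsUnit n) :
    ∀ᵐ x : ℂ, ∀ (k : ℤ) (d : ℤ → ℕ), IsExpansion a₀ a₁ a₂ α x k d →
      ∀ (l : ℕ) (w : Fin l → ℕ), (∀ i, (w i : ℤ) < |a₀|) →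
        Tendsto (fun n : ℕ =>
          (Nat.card {t : ℕ // t < n ∧ ∀ i : Fin l, d (k - t - (i : ℕ)) = w i} : ℝ) / n)
          atTop (𝓝 (1 / (|a₀| : ℝ) ^ l)) := by
  filter_upwards [Pool.Agent.Q275.GQ.fin Pool.Agent.Q275.GQ.t_MAIN a₀ a₁ a₂ α hα hα1 h0 h2 hc] with x hx
  intro k d hd l w hw
  exact hx k d ⟨hd.digit, hd.sum, hd.mem⟩ l w hw

end Pool.Agent.Results.MP_cdbd41_nt.WordFrequencies
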